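import Pool.Agent.Lib.MP_dcb6ed_co_CD.ThrC

/-!
# Integral list edge-colourings outside prescribed small sets at the threshold

`listProb n p Q` is the probability that a random `(p, 2n-1)`-list assignment `L` of `K_{2n}`
satisfies `Q` (each colour is in each list independently with probability `p`).
-/

set_option autoImplicit false

namespace Pool.Agent.Results.MP_dcb6ed_co.ColouringOutsideSmallSets

open Filter Topology Pool.Agent.Lib.FR Pool.Agent.Lib.CD

/-- Let `ε > 0`, `p n ≥ (1 + ε) log n / n`, and let `A n` be prescribed sets of vertices and `C n`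
prescribed sets of colours of size at least `2 n / (log n)^(1/200)`.  Then a random
`(p n, 2n-1)`-list assignment `L` of `K_{2n}` a.a.s. admits a partial proper edge-colouring `φ` from
the lists in which every edge that is not inside `A n` is coloured, and every vertex `v` sees every
colour `c` for which `v ∉ A n` or `c ∉ C n`. -/
theorem result (ε : ℝ) (hε : 0 < ε) (p : ℕ → ℝ)
    (hp : ∀ᶠ n : ℕ in atTop, (1 + ε) * Real.log n / n ≤ p n ∧ p n ≤ 1)
    (A : ∀ n : ℕ, Finset (Fin (2 * n))) (C : ∀ n : ℕ, Finset (Fin (2 * n - 1)))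
    (hA : ∀ᶠ n : ℕ in atTop, 2 * n / Real.log n ^ (1 / 200 : ℝ) ≤ ((A n).card : ℝ))
    (hC : ∀ᶠ n : ℕ in atTop, 2 * n / Real.log n ^ (1 / 200 : ℝ) ≤ ((C n).card : ℝ)) :
    Tendsto (fun n : ℕ => listProb n (p n) (fun L =>
      ∃ φ : Edge (Fin (2 * n)) → Option (Fin (2 * n - 1)),
        (∀ e c, φ e = some c → c ∈ L e) ∧
        (∀ e e' c v, φ e = some c → φ e' = some c → v ∈ e.1 → v ∈ e'.1 → e = e') ∧
        (∀ e v, v ∈ e.1 → v ∉ A n → ∃ c, φ e = some c) ∧
        (∀ v c, (v ∉ A n ∨ c ∉ C n) → ∃ e, v ∈ e.1 ∧ φ e = some c))) atTop (𝓝 1) := by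
  refine (thr hε p hp A C hA hC).congr fun n => ?_
  congr 1
  funext L
  refine propext ⟨?_, ?_⟩
  · rintro ⟨φ, hφ⟩
    exact ⟨φ, hφ.list, hφ.prop, hφ.edge, hφ.pres⟩
  · rintro ⟨φ, h3, h4, h5, h6⟩
    exact ⟨φ, h3, h4, h5, h6⟩

end Pool.Agent.Results.MP_dcb6ed_co.ColouringOutsideSmallSets
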