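import Pool.Agent.Lib.MP_6d56f7_co_FR.Thr

/-!
# The sharp threshold for fractional list edge-colourings of complete graphs

`listProb n p Q` is the probability that a random `(p, 2n-1)`-list assignment `L` of `K_{2n}`
satisfies `Q`. A fractional `L`-edge-colouring `P` (`FracCol L P`) consists of a probability
distribution `P c` on perfect matchings for every colour `c`, supported on the perfect matchings
all of whose edges have `c` in their lists, such that every edge is covered once on average:
`∑ c, marg P c e = 1`, where `marg P c e` is the probability that `e` is in the random perfect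
matching of colour `c`. (When all distributions are point masses this is an `L`-edge-colouring.)
-/

set_option autoImplicit false

namespace Pool.Agent.Results.MP_dcb6ed_co.FractionalThreshold

open Filter Topology Pool.Agent.Lib.FR

theorem result :
    (∀ ε : ℝ, 0 < ε → ∃ a b : ℝ, 0 < a ∧ 0 < b ∧ ∀ p : ℕ → ℝ,
      (∀ᶠ n : ℕ in atTop, (1 + ε) * Real.log n / n ≤ p n ∧ p n ≤ 1) →
      Tendsto (fun n => listProb n (p n) (fun L => ∃ P, FracCol L P ∧
        ∀ e, ∀ c ∈ L e, a / (n * p n) ≤ marg P c e ∧ marg P c e ≤ b / (n * p n)))
        atTop (𝓝 1)) ∧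
    (∀ ε : ℝ, 0 < ε → ∀ p : ℕ → ℝ,
      (∀ᶠ n : ℕ in atTop, 0 ≤ p n ∧ p n ≤ (1 - ε) * Real.log n / n) →
      Tendsto (fun n => listProb n (p n) (fun L => ∃ P, FracCol L P)) atTop (𝓝 0)) :=
  threshold

end Pool.Agent.Results.MP_dcb6ed_co.FractionalThreshold
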