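import Pool.Agent.Lib.MP_6d56f7_co_LT.ThrQ
import Pool.Agent.Lib.MP_6d56f7_co_LT.Blow

set_option autoImplicit false

namespace Pool.Agent.Results.MP_dcb6ed_co.KFoldThreshold

open Finset Filter Topology

/-- the edges of `K_{2n}` -/
abbrev Edge (n : ℕ) : Type := {e : Sym2 (Fin (2 * n)) // ¬ e.IsDiag}

/-- list assignments -/
abbrev Lists (n : ℕ) : Type := Edge n → Finset (Fin (2 * n - 1))

/-- the probability that a random `(p, 2n-1)`-list assignment satisfies `Q` -/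
noncomputable def listProb (n : ℕ) (p : ℝ) (Q : Lists n → Prop) : ℝ := by
  classical
  exact ∑ L : Lists n, if Q L then ∏ e, ∏ c, (if c ∈ L e then p else 1 - p) else 0

/-- for all large `K` there are perfect matchings `M c i`, `i < K`, of `K_{2n}`, for every colour
`c`, whose edges have the colour `c` in their lists, such that every edge is in exactly `K` of
them -/
def Good (n : ℕ) (L : Lists n) : Prop :=
  ∃ K₀ : ℕ, ∀ K : ℕ, K₀ ≤ K →
    ∃ M : Fin (2 * n - 1) → Fin K → Finset (Edge n),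
      (∀ c i, ∀ v : Fin (2 * n), ∃! e, e ∈ M c i ∧ v ∈ (e : Sym2 (Fin (2 * n)))) ∧
      (∀ c i, ∀ e ∈ M c i, c ∈ L e) ∧
      ∀ e : Edge n, (univ.filter (fun q : Fin (2 * n - 1) × Fin K => e ∈ M q.1 q.2)).card = K

/-- every edge has a colour in its list, and every vertex has in every colour an edge with this
colour in its list -/
def Cov (n : ℕ) (L : Lists n) : Prop :=
  (∀ e, (L e).Nonempty) ∧ ∀ v c, ∃ e : Edge n, v ∈ e.1 ∧ c ∈ L e

/-- the blow-up of `K_{2n}`, in which every vertex is replaced by `K` vertices, has a proper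
edge-colouring with the colours `(c, i)`, `i < K`, in which every edge over `e` has a colour
`(c, i)` with `c` in the list of `e` -/
def BlowUp (n K : ℕ) (L : Lists n) : Prop :=
  ∃ φ : Fin (2 * n) × Fin K → Fin (2 * n) × Fin K → Fin (2 * n - 1) × Fin K,
    (∀ x y, φ x y = φ y x) ∧
    (∀ x y (h : ¬ (s(x.1, y.1) : Sym2 (Fin (2 * n))).IsDiag), (φ x y).1 ∈ L ⟨s(x.1, y.1), h⟩) ∧
    ∀ x y z, y ≠ z → x.1 ≠ y.1 → x.1 ≠ z.1 → φ x y ≠ φ x z

/-- Multiple list one-factorizations of `K_{2n}` from random lists with density `p n`. -/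
theorem result :
    (∀ p : ℕ → ℝ, (∀ᶠ n : ℕ in atTop, 0 ≤ p n ∧ p n ≤ 1) →
      Tendsto (fun n => listProb n (p n) (fun L => Cov n L ∧ ¬ Good n L)) atTop (𝓝 0)) ∧
    (∀ (x : ℝ) (p : ℕ → ℝ), (∀ᶠ n : ℕ in atTop, 0 ≤ p n ∧ p n ≤ 1) →
      Tendsto (fun n : ℕ => n * p n - Real.log n) atTop (𝓝 x) →
      Tendsto (fun n => listProb n (p n) (Good n)) atTop
        (𝓝 (Real.exp (-(6 * Real.exp (-(2 * x))))))) ∧
    (∀ ε : ℝ, 0 < ε → ∀ p : ℕ → ℝ,
      (∀ᶠ n : ℕ in atTop, (1 + ε) * Real.log n / n ≤ p n ∧ p n ≤ 1) →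
      Tendsto (fun n => listProb n (p n) (Good n)) atTop (𝓝 1)) ∧
    (∀ ε : ℝ, 0 < ε → ∀ p : ℕ → ℝ,
      (∀ᶠ n : ℕ in atTop, 0 ≤ p n ∧ p n ≤ (1 - ε) * Real.log n / n) →
      Tendsto (fun n => listProb n (p n) (fun L =>
        ∃ w : Fin (2 * n - 1) → Edge n → ℤ, (∀ c e, w c e ≠ 0 → c ∈ L e) ∧
          ∀ e, ∑ c, w c e ≠ 0)) atTop (𝓝 0)) ∧
    (∀ (n : ℕ) (L : Lists n), Good n L → ∃ K₀ : ℕ, ∀ K : ℕ, K₀ ≤ K → BlowUp n K L) := by
  refine ⟨Pool.Agent.Lib.LT.thresholdQ.1, Pool.Agent.Lib.LT.thresholdQ.2.1,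
    Pool.Agent.Lib.LT.thresholdQ.2.2.1, Pool.Agent.Lib.LT.thresholdQ.2.2.2, ?_⟩
  rintro n L ⟨K₀, hK⟩
  refine ⟨K₀, fun K hK' => ?_⟩
  obtain ⟨M, h3, h4, h5⟩ := hK K hK'
  exact Pool.Agent.Lib.LT.blow_of_km (R := fun c e => c ∈ L e) M h3 h4 h5

end Pool.Agent.Results.MP_dcb6ed_co.KFoldThreshold
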