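import Pool.Agent.Lib.MP_dcb6ed_co_AMP.Fin

/-!
# The threshold for 1-factorizations from random colour lists is sharp, with a rate

`listProb n p Q` is the probability that a random `(p, 2n-1)`-list assignment `L` of `K_{2n}`
satisfies `Q` (each colour is in each list independently with probability `p`), and `Colo L` says
that there is an `L`-edge-colouring: a map `φ` from the edges to the colours with `φ e ∈ L e` for
every edge `e` which gives different colours to different edges with a common vertex.
-/

set_option autoImplicit false

namespace Pool.Agent.Results.MP_dcb6ed_co.ShortThresholdInterval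

open Filter Pool.Agent.Lib.FR Pool.Agent.Lib.AMP

/-- For all large `n`, all `(log n)^(-1/1000) ≤ δ ≤ 1/2` and all `0 ≤ p ≤ (log n)^10 / n`: if a
random `(p, 2n-1)`-list assignment of `K_{2n}` has an edge-colouring from the lists with probability
at least `δ`, then a random `(p', 2n-1)`-list assignment with
`p' = (1 + 1000 log(1/δ) / log log n) p` has one with probability at least `1 - δ`. -/
theorem result : ∀ᶠ n : ℕ in atTop, ∀ δ : ℝ, Real.log n ^ (-(1 / 1000) : ℝ) ≤ δ → δ ≤ 1 / 2 →
    ∀ p : ℝ, 0 ≤ p → p ≤ Real.log n ^ 10 / n → δ ≤ listProb n p (fun L => Colo L) →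
    1 - δ ≤ listProb n ((1 + 1000 * Real.log (1 / δ) / Real.log (Real.log n)) * p)
      (fun L => Colo L) :=
  window

end Pool.Agent.Results.MP_dcb6ed_co.ShortThresholdInterval
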